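import Pool.Agent.W851.BE.Stm

/-!
# BE-LIM: the theorem when infinity is a non-repelling fixed point
-/

open Polynomial Topology Filter MeasureTheory
open scoped ENNReal

namespace Pool.Agent.W928.BE

open Pool.Agent.W95.BK Pool.Agent.W851.BE

universe u

section
variable {K : Type u} [NontriviallyNormedField K] [IsUltrametricDist K]

lemma cl_inj : Function.Injective (cl : K → BA K) := by
  intro a b h
  have h1 : (cl a : BA K) (X - C a) = (cl b : BA K) (X - C a) := by rw [h]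
  have h2 : (cl a : BA K) (X - C a) = 0 := by
    change ‖(X - C a).eval a‖ = 0; simp
  have h3 : (cl b : BA K) (X - C a) = ‖b - a‖ := by
    change ‖(X - C a).eval b‖ = _; simp
  rw [h2, h3] at h1
  exact (sub_eq_zero.1 (norm_eq_zero.1 h1.symm)).symm

lemma TII_HK (hG : S_GLAM.{u}) (x : BA K) (hx : TII x) : HK x := by
  obtain ⟨a, r, hr, _, rfl⟩ := hx
  intro b hb
  have h1 : lam (gauss a r hr : BA K) b = lam (cl b : BA K) b := by rw [hb]
  rw [(hG K a b).2 r hr, (hG K b b).1, sub_self, norm_zero] at h1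
  have h2 : r ≤ max ‖a - b‖ r := le_max_right _ _
  linarith

lemma struct (hG : S_GLAM.{u}) (hLD1 : S_LD1.{u}) (hT2 : S_TYPE2.{u}) [IsAlgClosed K] (f : RMap K)
    (hd : 2 ≤ f.d) (hfin : (RF f).Finite) (hinf : sphDeriv f OnePoint.infty ≤ 1) :
    ∃ (I : Finset (BA K)) (Cl : Finset K), (∀ x, x ∈ I ↔ XF f x) ∧ (∀ c, c ∈ Cl ↔ CR f c) ∧
      ∀ φ : P1B K → ℝ, ∑ᶠ x ∈ RF f, (localDeg f x : ℝ) * φ x =
        ∑ x ∈ I, (localDeg f (x : P1B K) : ℝ) * φ (x : P1B K) +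
          ∑ c ∈ Cl, φ ((cl c : BA K) : P1B K) := by
  classical
  have hinj1 : Function.Injective (fun x : BA K => (x : P1B K)) := OnePoint.coe_injective
  have hinj2 : Function.Injective (fun c : K => ((cl c : BA K) : P1B K)) :=
    fun a b h => cl_inj (OnePoint.coe_injective h)
  have hIf : {x : BA K | XF f x}.Finite := by
    refine Set.Finite.subset (hfin.preimage hinj1.injOn) ?_
    intro x hx
    exact Or.inl ⟨x, TII_HK hG x hx.1, rfl, hx.2.1, hx.2.2⟩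
  have hCf : {c : K | CR f c}.Finite := by
    refine Set.Finite.subset (hfin.preimage hinj2.injOn) ?_
    intro c hc
    exact Or.inr ⟨Or.inr ⟨c, rfl⟩, hc.1, hc.2⟩
  refine ⟨hIf.toFinset, hCf.toFinset, by simp, by simp, fun φ => ?_⟩
  have hset : RF f = (fun x : BA K => (x : P1B K)) '' {x | XF f x} ∪
      (fun c : K => ((cl c : BA K) : P1B K)) '' {c | CR f c} := by
    ext x
    constructor
    · rintro (⟨y, hy, rfl, h1, h2⟩ | ⟨h | ⟨c, rfl⟩, h1, h2⟩)
      · left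
        exact ⟨y, ⟨hT2 K f y hd hy h1 h2, h1, h2⟩, rfl⟩
      · subst h
        exact absurd h2 (not_lt.2 hinf)
      · right
        exact ⟨c, ⟨h1, h2⟩, rfl⟩
    · rintro (⟨y, hy, rfl⟩ | ⟨c, hc, rfl⟩)
      · left
        exact ⟨y, TII_HK hG y hy.1, rfl, hy.2.1, hy.2.2⟩
      · right
        exact ⟨Or.inr ⟨c, rfl⟩, hc.1, hc.2⟩
  have hdisj : Disjoint ((fun x : BA K => (x : P1B K)) '' {x | XF f x})
      ((fun c : K => ((cl c : BA K) : P1B K)) '' {c | CR f c}) := by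
    rw [Set.disjoint_left]
    rintro _ ⟨y, hy, rfl⟩ ⟨c, hc, h⟩
    exact TII_HK hG y hy.1 c (OnePoint.coe_injective h).symm
  rw [hset, finsum_mem_union hdisj (hIf.image _) (hCf.image _), finsum_mem_image hinj1.injOn,
    finsum_mem_image hinj2.injOn]
  congr 1
  · rw [← finsum_mem_coe_finset]
    simp
  · rw [← finsum_mem_coe_finset]
    simp only [Set.Finite.coe_toFinset]
    refine finsum_mem_congr rfl fun c hc => ?_
    have hc' : CR f c := hc
    rw [hLD1 K f _ (Or.inr ⟨c, rfl⟩) hc'.1 (lt_trans one_pos hc'.2)]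
    simp

end

lemma err_tendsto (d C : ℕ) (hd : 2 ≤ d) :
    Tendsto (fun n : ℕ => ((C * n * 4 ^ (n / 3) : ℕ) + 1 : ℝ) / (d : ℝ) ^ n) atTop (𝓝 0) := by
  have h1 : Tendsto (fun n : ℕ => (C : ℝ) * ((n : ℝ) * (4 / 5 : ℝ) ^ n) + (1 / 2 : ℝ) ^ n) atTop
      (𝓝 (C * 0 + 0)) := by
    refine Tendsto.add (Tendsto.const_mul _ ?_) ?_
    · exact tendsto_self_mul_const_pow_of_abs_lt_one (by rw [abs_of_pos] <;> norm_num)
    · exact tendsto_pow_atTop_nhds_zero_of_lt_one (by norm_num) (by norm_num)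
  rw [mul_zero, add_zero] at h1
  refine squeeze_zero (fun n => by positivity) (fun n => ?_) h1
  have hd' : (2 : ℝ) ≤ d := by exact_mod_cast hd
  have hdn : (2 : ℝ) ^ n ≤ (d : ℝ) ^ n := pow_le_pow_left₀ (by norm_num) hd' n
  have h2n : (0 : ℝ) < (2 : ℝ) ^ n := by positivity
  have h4 : (4 : ℝ) ^ (n / 3) ≤ (8 / 5 : ℝ) ^ n := by
    calc (4 : ℝ) ^ (n / 3) ≤ ((8 / 5 : ℝ) ^ 3) ^ (n / 3) :=
          pow_le_pow_left₀ (by norm_num) (by norm_num) _
      _ = (8 / 5 : ℝ) ^ (3 * (n / 3)) := by rw [pow_mul]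
      _ ≤ (8 / 5 : ℝ) ^ n := pow_le_pow_right₀ (by norm_num) (Nat.mul_div_le n 3)
  push_cast
  calc ((C : ℝ) * n * 4 ^ (n / 3) + 1) / (d : ℝ) ^ n
      ≤ ((C : ℝ) * n * (8 / 5 : ℝ) ^ n + 1) / (2 : ℝ) ^ n := by
        apply div_le_div₀ (by positivity) _ h2n hdn
        gcongr
    _ = (C : ℝ) * ((n : ℝ) * (4 / 5 : ℝ) ^ n) + (1 / 2 : ℝ) ^ n := by
        have : (8 / 5 : ℝ) ^ n = (4 / 5 : ℝ) ^ n * 2 ^ n := by
          rw [← mul_pow]; norm_num
        rw [this, add_div, one_div_pow]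
        field_simp

section
variable {K : Type u} [NontriviallyNormedField K]

lemma integrable_cont (ρ : Measure (P1B K)) [IsProbabilityMeasure ρ] (φ : C(P1B K, ℝ)) :
    Integrable (fun x => φ x) ρ := by
  refine Integrable.of_bound φ.continuous.aestronglyMeasurable ‖φ‖ ?_
  exact Eventually.of_forall fun x => φ.norm_coe_le_norm x

end

theorem main (hG : S_GLAM.{u}) (hLD1 : S_LD1.{u}) (hT2 : S_TYPE2.{u}) (hIT : S_ITER.{u})
    (hFIN : S_FIN.{u}) (hNRIN : S_NRIN.{u}) (hAB : S_AB.{u}) (hUBT : S_UBT.{u})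
    (hNBIG : S_NBIG.{u}) (hEXH : S_EXH.{u}) : S_LIM.{u} := by
  classical
  intro K _ _ _ R hRd hNRI ρ hρ hE
  have hdn : ∀ n, (R.iter n).d = R.d ^ n := (hIT K R).1
  have hd2 : ∀ n, 1 ≤ n → 2 ≤ (R.iter n).d := by
    intro n hn
    rw [hdn]
    calc 2 ≤ R.d := hRd
      _ = R.d ^ 1 := (pow_one _).symm
      _ ≤ R.d ^ n := Nat.pow_le_pow_right (by omega) hn
  have hfin : ∀ n, 1 ≤ n → (RF (R.iter n)).Finite := fun n hn => hFIN K _ (hd2 n hn)
  refine ⟨hfin, fun φ => ?_⟩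
  obtain ⟨c0, hc0⟩ := hAB K R hRd hNRI
  set M : ℝ := ‖φ‖ with hM
  have hMn : 0 ≤ M := norm_nonneg _
  have hφM : ∀ x, |φ x| ≤ M := fun x => φ.norm_coe_le_norm x
  set E : ℕ → ℝ := fun n => ((c0 * n * 4 ^ (n / 3) : ℕ) + 1 : ℝ) with hEdef
  have hE0 : Tendsto (fun n => E n / (R.d : ℝ) ^ n) atTop (𝓝 0) := err_tendsto R.d c0 hRd
  set T : ℕ → (P1B K → ℝ) → ℝ := fun n ψ => ∑ᶠ x ∈ RF (R.iter n), (localDeg (R.iter n) x : ℝ) * ψ x
    with hT
  have hdpos : ∀ n, (0 : ℝ) < (R.d : ℝ) ^ n := fun n => by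
    have : (0 : ℝ) < R.d := by exact_mod_cast (by omega : 0 < R.d)
    positivity
  -- upper bound
  have hup : ∀ ψ : C(P1B K, ℝ), (∀ x, 0 ≤ ψ x) → (∀ x, ψ x ≤ 2 * M) → ∀ ε : ℝ, 0 < ε →
      ∀ᶠ n in atTop, T n ψ ≤ (R.d : ℝ) ^ n * (∫ x, ψ x ∂ρ + ε) + 2 * M * (E n - 1) := by
    intro ψ hψ0 hψM ε hε
    filter_upwards [hUBT K R hRd ρ hρ hE ψ hψ0 ε hε, eventually_ge_atTop 1] with n hn hn1
    obtain ⟨I, Cl, hI, hCl, hsum⟩ := struct hG hLD1 hT2 (R.iter n) (hd2 n hn1) (hfin n hn1)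
      (hNRIN K R hNRI n).2.2
    have h1 := hn I Cl (fun x hx => (hI x).1 hx) (fun c hc => (hCl c).1 hc)
    have h2 : T n ψ = ∑ x ∈ I, ((localDeg (R.iter n) (x : P1B K) : ℝ) -
        if PA (R.iter n) x then 1 else 0) * ψ (x : P1B K) + ∑ z ∈ Cl, ψ ((cl z : BA K) : P1B K) +
        ∑ x ∈ I, (if PA (R.iter n) x then 1 else 0) * ψ (x : P1B K) := by
      rw [hT]
      simp only
      rw [hsum]
      have : ∑ x ∈ I, (localDeg (R.iter n) (x : P1B K) : ℝ) * ψ (x : P1B K) =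
          ∑ x ∈ I, ((localDeg (R.iter n) (x : P1B K) : ℝ) -
            if PA (R.iter n) x then 1 else 0) * ψ (x : P1B K) +
          ∑ x ∈ I, (if PA (R.iter n) x then 1 else 0) * ψ (x : P1B K) := by
        rw [← Finset.sum_add_distrib]
        refine Finset.sum_congr rfl fun x _ => ?_
        ring
      rw [this]; ring
    have h3 : ∑ x ∈ I, (if PA (R.iter n) x then (1 : ℝ) else 0) * ψ (x : P1B K) ≤
        2 * M * (E n - 1) := by
      have h4 : ∑ x ∈ I, (if PA (R.iter n) x then (1 : ℝ) else 0) * ψ (x : P1B K) =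
          ∑ x ∈ I.filter (fun x => PA (R.iter n) x), ψ (x : P1B K) := by
        rw [Finset.sum_filter]
        refine Finset.sum_congr rfl fun x _ => ?_
        split_ifs <;> simp
      have h5 : (I.filter (fun x => PA (R.iter n) x)).card ≤ c0 * n * 4 ^ (n / 3) :=
        hc0 n hn1 _ fun x hx => Or.inl (Finset.mem_filter.1 hx).2
      rw [h4]
      calc ∑ x ∈ I.filter (fun x => PA (R.iter n) x), ψ (x : P1B K)
          ≤ ∑ x ∈ I.filter (fun x => PA (R.iter n) x), (2 * M) :=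
            Finset.sum_le_sum fun x _ => hψM _
        _ = ((I.filter (fun x => PA (R.iter n) x)).card : ℝ) * (2 * M) := by
            rw [Finset.sum_const, nsmul_eq_mul]
        _ ≤ ((c0 * n * 4 ^ (n / 3) : ℕ) : ℝ) * (2 * M) := by
            gcongr
        _ = 2 * M * (E n - 1) := by
            rw [hEdef]; ring
    rw [h2]
    linarith
  -- lower bound for the total mass
  have hlow : ∀ n, 1 ≤ n → (R.d : ℝ) ^ n - E n ≤ T n (fun _ => 1) := by
    intro n hn1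
    obtain ⟨I, Cl, hI, hCl, hsum⟩ := struct hG hLD1 hT2 (R.iter n) (hd2 n hn1) (hfin n hn1)
      (hNRIN K R hNRI n).2.2
    obtain ⟨r, hr, hrd⟩ := hNBIG K (R.iter n) (hNRIN K R hNRI n).1.1
    obtain ⟨I', Cl', S', hI', hCl', hS', hle⟩ := hEXH K (R.iter n) 0 r (hd2 n hn1) hr
    have h1 : ∑ x ∈ I', localDeg (R.iter n) (x : P1B K) ≤ ∑ x ∈ I, localDeg (R.iter n) (x : P1B K) :=
      Finset.sum_le_sum_of_subset fun x hx => (hI x).2 (hI' x hx).1
    have h2 : Cl'.card ≤ Cl.card := Finset.card_le_card fun c hc => (hCl c).2 (hCl' c hc).1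
    have h3 : S'.card ≤ c0 * n * 4 ^ (n / 3) := hc0 n hn1 S' fun x hx => Or.inr (hS' x hx).1
    have h4 : T n (fun _ => 1) = ((∑ x ∈ I, localDeg (R.iter n) (x : P1B K) + Cl.card : ℕ) : ℝ) := by
      rw [hT]
      simp only
      rw [hsum]
      simp
    rw [hdn] at hrd
    have h5 : R.d ^ n ≤ (∑ x ∈ I, localDeg (R.iter n) (x : P1B K) + Cl.card) +
        (c0 * n * 4 ^ (n / 3) + 1) := by omega
    rw [h4, hEdef]
    have h6 : ((R.d ^ n : ℕ) : ℝ) ≤ (((∑ x ∈ I, localDeg (R.iter n) (x : P1B K) + Cl.card) +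
        (c0 * n * 4 ^ (n / 3) + 1) : ℕ) : ℝ) := by exact_mod_cast h5
    push_cast at h6 ⊢
    linarith
  -- linearity
  have hlin : ∀ n, 1 ≤ n → ∀ (a : ℝ) (ψ : P1B K → ℝ) (s : ℝ),
      T n (fun x => a + s * ψ x) = a * T n (fun _ => 1) + s * T n ψ := by
    intro n hn1 a ψ s
    obtain ⟨I, Cl, hI, hCl, hsum⟩ := struct hG hLD1 hT2 (R.iter n) (hd2 n hn1) (hfin n hn1)
      (hNRIN K R hNRI n).2.2
    rw [hT]
    simp only
    rw [hsum, hsum, hsum, mul_add, mul_add, Finset.mul_sum, Finset.mul_sum, Finset.mul_sum,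
      Finset.mul_sum]
    have e1 : ∑ x ∈ I, (localDeg (R.iter n) (x : P1B K) : ℝ) * (a + s * ψ (x : P1B K)) =
        ∑ x ∈ I, a * ((localDeg (R.iter n) (x : P1B K) : ℝ) * 1) +
          ∑ x ∈ I, s * ((localDeg (R.iter n) (x : P1B K) : ℝ) * ψ (x : P1B K)) := by
      rw [← Finset.sum_add_distrib]
      exact Finset.sum_congr rfl fun x _ => by ring
    have e2 : ∑ c ∈ Cl, (a + s * ψ ((cl c : BA K) : P1B K)) =
        ∑ c ∈ Cl, a * (1 : ℝ) + ∑ c ∈ Cl, s * ψ ((cl c : BA K) : P1B K) := by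
      rw [← Finset.sum_add_distrib]
      exact Finset.sum_congr rfl fun x _ => by ring
    rw [e1, e2]; ring
  set J := ∫ x, φ x ∂ρ with hJ
  have hint : Integrable (fun x => φ x) ρ := integrable_cont ρ φ
  -- the two test functions
  set φ₁ : C(P1B K, ℝ) := ContinuousMap.const _ M + φ with hφ₁
  set φ₂ : C(P1B K, ℝ) := ContinuousMap.const _ M - φ with hφ₂
  have hφ₁x : ∀ x, φ₁ x = M + 1 * φ x := fun x => by simp [hφ₁]
  have hφ₂x : ∀ x, φ₂ x = M + (-1) * φ x := fun x => by simp [hφ₂, sub_eq_add_neg]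
  have hI1 : ∫ x, φ₁ x ∂ρ = M + J := by
    simp_rw [hφ₁x, one_mul]
    rw [integral_add (integrable_const _) hint]
    simp [hJ]
  have hI2 : ∫ x, φ₂ x ∂ρ = M - J := by
    simp_rw [hφ₂x]
    rw [integral_add (integrable_const _) (hint.const_mul _), integral_const_mul]
    simp [hJ, sub_eq_add_neg]
  rw [Metric.tendsto_atTop']
  intro ε hε
  have hε4 : 0 < ε / 4 := by linarith
  have ev1 := hup φ₁ (fun x => by rw [hφ₁x]; have := (abs_le.1 (hφM x)).1; linarith)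
    (fun x => by rw [hφ₁x]; have := (abs_le.1 (hφM x)).2; linarith) (ε / 4) hε4
  have ev2 := hup φ₂ (fun x => by rw [hφ₂x]; have := (abs_le.1 (hφM x)).2; linarith)
    (fun x => by rw [hφ₂x]; have := (abs_le.1 (hφM x)).1; linarith) (ε / 4) hε4
  have ev3 : ∀ᶠ n in atTop, 3 * M * (E n / (R.d : ℝ) ^ n) < ε / 4 := by
    have : Tendsto (fun n => 3 * M * (E n / (R.d : ℝ) ^ n)) atTop (𝓝 (3 * M * 0)) :=
      hE0.const_mul _
    rw [mul_zero] at this
    exact this.eventually (gt_mem_nhds hε4)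
  obtain ⟨N, hN⟩ := eventually_atTop.1 (ev1.and (ev2.and (ev3.and (eventually_ge_atTop 1))))
  refine ⟨N, fun n hn => ?_⟩
  obtain ⟨h1, h2, h3, hn1⟩ := hN n hn.le
  have hT1 : T n φ₁ = M * T n (fun _ => 1) + T n φ := by
    have := hlin n hn1 M φ 1
    rw [one_mul] at this
    rw [← this]
    congr 1
    funext x
    exact hφ₁x x
  have hT2' : T n φ₂ = M * T n (fun _ => 1) - T n φ := by
    have := hlin n hn1 M φ (-1)
    have e : T n φ₂ = T n (fun x => M + (-1) * φ x) := by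
      congr 1
      funext x
      exact hφ₂x x
    rw [e, this]; ring
  have hl := hlow n hn1
  rw [hT1, hI1] at h1
  rw [hT2', hI2] at h2
  have hD := hdpos n
  set D := (R.d : ℝ) ^ n with hDdef
  have hEn : 0 ≤ E n := by rw [hEdef]; positivity
  have hML : M * (D - E n) ≤ M * T n (fun _ => 1) := mul_le_mul_of_nonneg_left hl hMn
  have hup' : T n φ ≤ D * (J + ε / 4) + 3 * M * E n := by nlinarith
  have hlo' : D * (J - ε / 4) - 3 * M * E n ≤ T n φ := by nlinarith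
  have h3' : 3 * M * E n < D * (ε / 4) := by
    have := (mul_lt_mul_iff_right₀ hD).2 h3
    have e : 3 * M * (E n / D) * D = 3 * M * E n := by field_simp
    nlinarith
  change dist (T n φ / D) J < ε
  rw [Real.dist_eq, abs_lt]
  constructor
  · rw [lt_sub_iff_add_lt, lt_div_iff₀ hD]
    nlinarith
  · rw [sub_lt_iff_lt_add, div_lt_iff₀ hD]
    nlinarith

end Pool.Agent.W928.BE
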